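import Mathlib

/-!
Levelled Boolean circuits of fan-in at most two and the closure properties used to
build them.
-/

namespace Pool.Agent.LibCC

/-- A Boolean gate of fan-in at most two reading nodes from the type `ν`. -/
inductive BGate (ν : Type) : Type
  | const (b : Bool) : BGate ν
  | wire (a : ν) : BGate ν
  | neg (a : ν) : BGate ν
  | and (a b : ν) : BGate ν
  | or (a b : ν) : BGate ν

/-- The bit computed by a gate from the values of the nodes it reads. -/
def BGate.eval {ν : Type} (x : ν → Bool) : BGate ν → Bool
  | .const b => b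
  | .wire a => x a
  | .neg a => !(x a)
  | .and a b => x a && x b
  | .or a b => x a || x b

def BGate.map {ν μ : Type} (φ : ν → μ) : BGate ν → BGate μ
  | .const b => .const b
  | .wire a => .wire (φ a)
  | .neg a => .neg (φ a)
  | .and a b => .and (φ a) (φ b)
  | .or a b => .or (φ a) (φ b)

theorem BGate.eval_map {ν μ : Type} (φ : ν → μ) (x : μ → Bool) (G : BGate ν) :
    (G.map φ).eval x = G.eval (fun a => x (φ a)) := by
  cases G <;> rfl

/-- A levelled Boolean circuit with `W` gates on every level and input bits indexed by `α`.
The gates on level `k + 1` read input bits and gates of level `k`. -/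
structure BCircuit (α : Type) (W : ℕ) where
  gate : ℕ → Fin W → BGate (α ⊕ Fin W)

/-- The values of the gates on level `k` when the input bits are `x`. -/
def BCircuit.level {α : Type} {W : ℕ} (B : BCircuit α W) (x : α → Bool) : ℕ → Fin W → Bool
  | 0 => fun _ => false
  | k + 1 => fun i => (B.gate k i).eval (Sum.elim x (B.level x k))

/-- Families of functions computed on level `d` by circuits with at most `W` gates per level. -/
inductive Lev (α : Type) (W : ℕ) : ℕ → (β : Type) → ((α → Bool) → β → Bool) → Prop
  | base : Lev α W 0 Empty (fun _ e => e.elim)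
  | step {d : ℕ} {β : Type} {f : (α → Bool) → β → Bool} (h : Lev α W d β f)
      (γ : Type) [Fintype γ] (hγ : Fintype.card γ ≤ W) (G : γ → BGate (α ⊕ β)) :
      Lev α W (d + 1) γ (fun x c => (G c).eval (Sum.elim x (f x)))

theorem Lev.toCircuit {α : Type} {W : ℕ} {d : ℕ} {β : Type} {f : (α → Bool) → β → Bool}
    (h : Lev α W d β f) :
    ∃ B : BCircuit α W, ∃ o : β → Fin W, ∀ x b, B.level x d (o b) = f x b := by
  induction h with
  | base =>
    exact ⟨⟨fun _ _ => .const false⟩, fun e => e.elim, fun x b => b.elim⟩
  | @step d β f h γ inst hγ G ih =>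
    obtain ⟨B, o, hB⟩ := ih
    classical
    have e1 : Nonempty (γ ↪ Fin W) := by
      apply Function.Embedding.nonempty_of_card_le
      simpa using hγ
    obtain ⟨ι⟩ := e1
    let g' : Fin W → BGate (α ⊕ Fin W) := fun i =>
      if hi : ∃ c, ι c = i then (G hi.choose).map (Sum.map id o) else .const false
    let B' : BCircuit α W := ⟨fun k => if k < d then B.gate k else g'⟩
    have hlev : ∀ x k, k ≤ d → B'.level x k = B.level x k := by
      intro x k
      induction k with
      | zero => intro _; rfl
      | succ k ihk =>
        intro hk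
        have h1 : B'.gate k = B.gate k := by
          change (if k < d then B.gate k else g') = B.gate k
          rw [if_pos (by omega)]
        funext i
        change (B'.gate k i).eval (Sum.elim x (B'.level x k))
          = (B.gate k i).eval (Sum.elim x (B.level x k))
        rw [h1, ihk (by omega)]
    refine ⟨B', fun c => ι c, ?_⟩
    intro x c
    have h2 : B'.gate d = g' := by
      change (if d < d then B.gate d else g') = g'
      rw [if_neg (lt_irrefl d)]
    change (B'.gate d (ι c)).eval (Sum.elim x (B'.level x d)) = _
    rw [h2, hlev x d le_rfl]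
    have hex : ∃ c', ι c' = ι c := ⟨c, rfl⟩
    have h3 : g' (ι c) = (G c).map (Sum.map id o) := by
      change (if hi : ∃ c', ι c' = ι c then (G hi.choose).map (Sum.map id o) else .const false)
        = _
      rw [dif_pos hex]
      have : hex.choose = c := ι.injective hex.choose_spec
      rw [this]
    rw [h3, BGate.eval_map]
    congr 1
    funext a
    cases a with
    | inl a => rfl
    | inr b => exact hB x b

/-- `FD k f`: the function `f` has a formula with `k + 1` levels. -/
def FD {β : Type} : ℕ → ((β → Bool) → Bool) → Prop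
  | 0, f => ∃ G : BGate β, ∀ x, f x = G.eval x
  | k + 1, f => ∃ (G : BGate Bool) (f' : Bool → (β → Bool) → Bool),
      (∀ i, FD k (f' i)) ∧ ∀ x, f x = G.eval (fun i => f' i x)

variable {β : Type}

theorem FD.succ {k : ℕ} {f : (β → Bool) → Bool} (h : FD k f) : FD (k + 1) f :=
  ⟨.wire true, fun _ => f, fun _ => h, fun _ => rfl⟩

theorem FD.mono {k l : ℕ} {f : (β → Bool) → Bool} (h : FD k f) (hkl : k ≤ l) : FD l f := by
  induction hkl with
  | refl => exact h
  | step _ ih => exact ih.succ

theorem FD.const (k : ℕ) (b : Bool) : FD (β := β) k (fun _ => b) := by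
  have : FD (β := β) 0 (fun _ => b) := ⟨.const b, fun _ => rfl⟩
  exact this.mono (Nat.zero_le _)

theorem FD.var (k : ℕ) (a : β) : FD k (fun x : β → Bool => x a) := by
  have : FD 0 (fun x : β → Bool => x a) := ⟨.wire a, fun _ => rfl⟩
  exact this.mono (Nat.zero_le _)

theorem FD.congr {k : ℕ} {f g : (β → Bool) → Bool} (h : FD k f) (hfg : ∀ x, g x = f x) :
    FD k g := by
  have : g = f := funext hfg
  rwa [this]

theorem FD.neg {k : ℕ} {f : (β → Bool) → Bool} (h : FD k f) : FD (k + 1) (fun x => !(f x)) :=
  ⟨.neg true, fun _ => f, fun _ => h, fun _ => rfl⟩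

theorem FD.and {k : ℕ} {f g : (β → Bool) → Bool} (h : FD k f) (h' : FD k g) :
    FD (k + 1) (fun x => f x && g x) :=
  ⟨.and true false, fun i => if i then f else g, fun i => by cases i <;> simpa, fun _ => rfl⟩

theorem FD.or {k : ℕ} {f g : (β → Bool) → Bool} (h : FD k f) (h' : FD k g) :
    FD (k + 1) (fun x => f x || g x) :=
  ⟨.or true false, fun i => if i then f else g, fun i => by cases i <;> simpa, fun _ => rfl⟩

theorem FD.anyList {k : ℕ} (j : ℕ) (l : List ((β → Bool) → Bool)) (hl : l.length ≤ 2 ^ j)
    (h : ∀ f ∈ l, FD k f) : FD (k + j) (fun x => l.any (fun f => f x)) := by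
  induction j generalizing l with
  | zero =>
    match l, hl, h with
    | [], _, _ => exact FD.const _ false
    | [f], _, h =>
      have : FD k f := h f (by simp)
      exact this.congr (fun x => by simp)
    | _ :: _ :: _, hl, _ => simp at hl
  | succ j ih =>
    have h1 := ih (l.take (2 ^ j)) (by simp) (fun f hf => h f (List.mem_of_mem_take hf))
    have h2 := ih (l.drop (2 ^ j)) (by
      rw [List.length_drop, pow_succ] at *
      omega) (fun f hf => h f (List.mem_of_mem_drop hf))
    refine (h1.or h2).congr (fun x => ?_)
    rw [← List.any_append, List.take_append_drop]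

theorem FD.exists {k : ℕ} (j : ℕ) {ι : Type} [Fintype ι] (hι : Fintype.card ι ≤ 2 ^ j)
    (g : ι → (β → Bool) → Bool) (h : ∀ i, FD k (g i)) :
    FD (k + j) (fun x => decide (∃ i, g i x = true)) := by
  classical
  have h1 := FD.anyList (k := k) j ((Finset.univ : Finset ι).toList.map g)
    (by simpa using hι) (by
      intro f hf
      rw [List.mem_map] at hf
      obtain ⟨i, _, rfl⟩ := hf
      exact h i)
  refine h1.congr (fun x => ?_)
  rw [Bool.eq_iff_iff]
  simp

theorem Lev.formula {α : Type} {W : ℕ} {k : ℕ} :
    ∀ {d : ℕ} {β : Type} {f : (α → Bool) → β → Bool} {γ : Type} [Fintype γ]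
      (F : γ → (α ⊕ β → Bool) → Bool) (_ : ∀ c, FD k (F c))
      (_ : Fintype.card γ * 2 ^ k ≤ W) (_ : Lev α W d β f),
      Lev α W (d + k + 1) γ (fun x c => F c (Sum.elim x (f x))) := by
  induction k with
  | zero =>
    intro d β f γ _ F hF hW h
    choose G hG using hF
    have := Lev.step h γ (by simpa using hW) G
    convert this using 3
    exact hG _ _
  | succ k ih =>
    intro d β f γ _ F hF hW h
    choose G f' hf' hG using hF
    have h1 := ih (γ := γ × Bool) (fun p => f' p.1 p.2) (fun p => hf' p.1 p.2)
      (by rw [Fintype.card_prod, Fintype.card_bool, mul_assoc]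
          rwa [pow_succ', ] at hW) h
    have h2 := Lev.step h1 γ (by
      refine le_trans ?_ hW
      exact Nat.le_mul_of_pos_right _ (by positivity))
      (fun c => (G c).map (fun i => Sum.inr (c, i)))
    have h3 : (fun (x : α → Bool) (c : γ) => F c (Sum.elim x (f x))) =
        fun (x : α → Bool) (c : γ) => BGate.eval
          (Sum.elim x fun c => f' c.1 c.2 (Sum.elim x (f x)))
          (BGate.map (fun i => Sum.inr (c, i)) (G c)) := by
      funext x c
      rw [BGate.eval_map, hG]
      rfl
    rw [h3]
    exact h2

end Pool.Agent.LibCC
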