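import Pool.Agent.LibCC.Machine

/-!
Depth and size of the machine.
-/

namespace Pool.Agent.LibCC

variable {n m : ℕ} {α Y : Type}

theorem fd_seeB (A : Acc α n m) {L : ℕ} (hL : Fintype.card (Arc n m) ≤ 2 ^ L)
    (zi : α → Y) (vi Oi : Arc n m → Y) (p : Fin m × Bool) :
    FD (2 + L) (fun y : Y → Bool =>
      seeB A (fun a => y (zi a)) (fun e => y (vi e)) (fun e => y (Oi e)) p) := by
  have := FD.exists (k := 2) L hL (fun (e : Arc n m) (y : Y → Bool) =>
    y (zi (A.In p e)) && (y (Oi e) && y (vi e)))
    (fun e => (FD.var 1 _).and ((FD.var 0 _).and (FD.var 0 _)))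
  exact this

theorem fd_comb {k : ℕ} (c : Bool) {f g : (Y → Bool) → Bool} (hf : FD k f) (hg : FD k g) :
    FD (k + 1) (fun y => comb c (f y) (g y)) := by
  cases c
  · exact hf.and hg
  · exact hf.or hg

theorem fd_nxB (A : Acc α n m) {L : ℕ} (hL : Fintype.card (Arc n m) ≤ 2 ^ L)
    (zi : α → Y) (vi Oi : Arc n m → Y) (e : Arc n m) (g : Fin m) (c b : Bool) :
    FD (4 + L) (fun y : Y → Bool =>
      nxB A (fun a => y (zi a)) (fun e => y (vi e)) (fun e => y (Oi e)) e g c b) := by
  have h1 := fd_seeB A hL zi vi Oi (g, !b)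
  have h2 : FD (3 + L) (fun y : Y → Bool => if c then
      !(seeB A (fun a => y (zi a)) (fun e => y (vi e)) (fun e => y (Oi e)) (g, !b)) else
      seeB A (fun a => y (zi a)) (fun e => y (vi e)) (fun e => y (Oi e)) (g, !b)) := by
    cases c
    · exact h1.mono (by omega)
    · exact h1.neg.mono (by omega)
  exact ((FD.var _ _).and h2).mono (by omega)

theorem fd_matB (A : Acc α n m) {L : ℕ} (hL : Fintype.card (Arc n m) ≤ 2 ^ L)
    (zi : α → Y) (vi Oi Si : Arc n m → Y) (e f : Arc n m) :
    FD (7 + L) (fun y : Y → Bool =>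
      matB A (fun a => y (zi a)) (fun e => y (vi e)) (fun e => y (Oi e))
        (fun e => y (Si e)) e f) := by
  rcases f with i | ⟨g, c⟩
  · exact FD.const _ _
  · have h1 := fd_nxB A hL zi vi Oi e g c false
    have h2 := fd_nxB A hL zi vi Oi e g c true
    have h3 : FD (5 + L) (fun y : Y → Bool => (y (Oi e) || y (Si e))) :=
      ((FD.var 0 _).or (FD.var 0 _)).mono (by omega)
    have h4 := (h3.and ((h1.or h2).mono (by omega)))
    exact ((FD.const _ _).or h4).mono (by omega)

theorem lev_round (A : Acc α n m) {W L d : ℕ} (hL : Fintype.card (Arc n m) ≤ 2 ^ L)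
    (hW : Fintype.card (St n m) * 2 ^ (3 + L) ≤ W) {f : (α → Bool) → St n m → Bool}
    (h : Lev α W d (St n m) f) :
    Lev α W (d + (4 + L)) (St n m) (fun x => roundB A x (f x)) := by
  have h1 := Lev.formula (k := 3 + L) (γ := St n m)
    (fun t (y : α ⊕ St n m → Bool) => roundB A (fun a => y (Sum.inl a))
      (fun b => y (Sum.inr b)) t) ?_ hW h
  · have e : d + (3 + L) + 1 = d + (4 + L) := by omega
    rw [e] at h1
    exact h1
  · intro t
    rcases t with (i | ⟨g, c⟩) | e
    · exact FD.var _ _
    · have h1 := fd_seeB A hL (Y := α ⊕ St n m) Sum.inl (fun e => Sum.inr (Sum.inl e))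
        (fun e => Sum.inr (Sum.inr e)) (g, false)
      have h2 := fd_seeB A hL (Y := α ⊕ St n m) Sum.inl (fun e => Sum.inr (Sum.inl e))
        (fun e => Sum.inr (Sum.inr e)) (g, true)
      exact (fd_comb c h1 h2).mono (by omega)
    · exact FD.var _ _

theorem lev_push (A : Acc α n m) {W L d kS : ℕ} (hL : Fintype.card (Arc n m) ≤ 2 ^ L)
    (pick : (α → Bool) → (St n m → Bool) → Arc n m → Bool)
    (hpick : ∀ e, FD kS (fun y : α ⊕ St n m → Bool =>
      pick (fun a => y (Sum.inl a)) (fun b => y (Sum.inr b)) e))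
    (hW1 : Fintype.card (St1 n m) * 2 ^ kS ≤ W)
    (hW2 : Fintype.card (St2 n m) * 2 ^ (7 + L) ≤ W) {f : (α → Bool) → St n m → Bool}
    (h : Lev α W d (St n m) f) :
    Lev α W (d + (kS + L * (L + 2) + 2 * L + 13)) (St n m)
      (fun x => pushB A L pick x (f x)) := by
  -- picking
  have h1 : Lev α W (d + kS + 1) (St1 n m) (fun x => st1B pick x (f x)) := by
    refine Lev.formula (k := kS) (γ := St1 n m)
      (fun t (y : α ⊕ St n m → Bool) => st1B pick (fun a => y (Sum.inl a))
        (fun b => y (Sum.inr b)) t) ?_ hW1 h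
    rintro (t | e)
    · exact FD.var _ _
    · exact hpick e
  have h2 : Lev α W (d + kS + 1 + (7 + L) + 1) (St2 n m)
      (fun x => st2B A x (st1B pick x (f x))) := by
    refine Lev.formula (k := 7 + L) (γ := St2 n m)
      (fun t (y : α ⊕ St1 n m → Bool) => st2B A (fun a => y (Sum.inl a))
        (fun b => y (Sum.inr b)) t) ?_ hW2 h1
    rintro (t | ⟨e, f⟩)
    · exact FD.var _ _
    · exact fd_matB A hL (Y := α ⊕ St1 n m) Sum.inl (fun e => Sum.inr (Sum.inl (Sum.inl e)))
        (fun e => Sum.inr (Sum.inl (Sum.inr e))) (fun e => Sum.inr (Sum.inr e)) e f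
  have h3 : ∀ (r d : ℕ) (f : (α → Bool) → St2 n m → Bool), Lev α W d (St2 n m) f →
      Lev α W (d + r * (L + 2)) (St2 n m) (fun x => sqB^[r] (f x)) := by
    intro r
    induction r with
    | zero => intro d f h; simpa using h
    | succ r ih =>
      intro d f h
      have h4 := ih d f h
      have h5 : Lev α W (d + r * (L + 2) + (1 + L) + 1) (St2 n m)
          (fun x => sqB (sqB^[r] (f x))) := by
        refine Lev.formula (k := 1 + L) (γ := St2 n m)
          (fun t (y : α ⊕ St2 n m → Bool) => sqB (fun b => y (Sum.inr b)) t) ?_ ?_ h4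
        · rintro (t | ⟨e, f⟩)
          · exact FD.var _ _
          · have := FD.exists (k := 1) L hL (fun (h : Arc n m) (y : α ⊕ St2 n m → Bool) =>
              (y (Sum.inr (Sum.inr (e, h))) && y (Sum.inr (Sum.inr (h, f)))))
              (fun _ => (FD.var 0 _).and (FD.var 0 _))
            exact this
        · refine le_trans (Nat.mul_le_mul_left _ ?_) hW2
          exact Nat.pow_le_pow_right (by norm_num) (by omega)
      have e : d + r * (L + 2) + (1 + L) + 1 = d + (r + 1) * (L + 2) := by ring
      rw [e] at h5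
      have e2 : (fun x => sqB^[r + 1] (f x)) = fun x => sqB (sqB^[r] (f x)) := by
        funext x
        rw [Function.iterate_succ_apply']
      rw [e2]
      exact h5
  have h4 := h3 L _ _ h2
  have h5 : Lev α W (d + kS + 1 + (7 + L) + 1 + L * (L + 2) + (3 + L) + 1) (St n m)
      (fun x => pushB A L pick x (f x)) := by
    refine Lev.formula (k := 3 + L) (γ := St n m)
      (fun t (y : α ⊕ St2 n m → Bool) => endB (fun b => y (Sum.inr b)) t) ?_ ?_ h4
    · rintro (f | e)
      · have h6 := FD.exists (k := 2) L hL (fun (e : Arc n m) (y : α ⊕ St2 n m → Bool) =>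
          ((y (Sum.inr (Sum.inl (Sum.inr e))) &&
            y (Sum.inr (Sum.inl (Sum.inl (Sum.inl e))))) && y (Sum.inr (Sum.inr (e, f)))))
          (fun _ => ((FD.var 0 _).and (FD.var 0 _)).and (FD.var 1 _))
        exact ((FD.var _ _).or h6).mono (by omega)
      · exact ((FD.var 0 _).or (FD.var 0 _)).mono (by omega)
    · refine le_trans (Nat.mul_le_mul ?_ ?_) hW2
      · simp only [Fintype.card_sum]
        omega
      · exact Nat.pow_le_pow_right (by norm_num) (by omega)
  have e : d + kS + 1 + (7 + L) + 1 + L * (L + 2) + (3 + L) + 1 =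
      d + (kS + L * (L + 2) + 2 * L + 13) := by ring
  rw [e] at h5
  exact h5

/-- Run the push step with the picks `pick 0, pick 1, ...`. -/
def run (A : Acc α n m) (L : ℕ)
    (pick : ℕ → (α → Bool) → (St n m → Bool) → Arc n m → Bool) (z : α → Bool)
    (s : St n m → Bool) : ℕ → St n m → Bool
  | 0 => s
  | j + 1 => pushB A L (pick j) z (run A L pick z s j)

theorem lev_run (A : Acc α n m) {W L d kS : ℕ} (hL : Fintype.card (Arc n m) ≤ 2 ^ L)
    (pick : ℕ → (α → Bool) → (St n m → Bool) → Arc n m → Bool)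
    (hpick : ∀ j e, FD kS (fun y : α ⊕ St n m → Bool =>
      pick j (fun a => y (Sum.inl a)) (fun b => y (Sum.inr b)) e))
    (hW1 : Fintype.card (St1 n m) * 2 ^ kS ≤ W)
    (hW2 : Fintype.card (St2 n m) * 2 ^ (7 + L) ≤ W) {f : (α → Bool) → St n m → Bool}
    (h : Lev α W d (St n m) f) (r : ℕ) :
    Lev α W (d + r * (kS + L * (L + 2) + 2 * L + 13)) (St n m)
      (fun x => run A L pick x (f x) r) := by
  induction r with
  | zero => simpa [run] using h
  | succ r ih =>
    have h1 := lev_push A hL (pick r) (hpick r) hW1 hW2 ih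
    have e : d + r * (kS + L * (L + 2) + 2 * L + 13) + (kS + L * (L + 2) + 2 * L + 13) =
      d + (r + 1) * (kS + L * (L + 2) + 2 * L + 13) := by ring
    rw [e] at h1
    exact h1

theorem lev_rounds (A : Acc α n m) {W L d : ℕ} (hL : Fintype.card (Arc n m) ≤ 2 ^ L)
    (hW : Fintype.card (St n m) * 2 ^ (3 + L) ≤ W) {f : (α → Bool) → St n m → Bool}
    (h : Lev α W d (St n m) f) (r : ℕ) :
    Lev α W (d + r * (4 + L)) (St n m) (fun x => (roundB A x)^[r] (f x)) := by
  induction r with
  | zero => simpa using h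
  | succ r ih =>
    have h1 := lev_round A hL hW ih
    have e : d + r * (4 + L) + (4 + L) = d + (r + 1) * (4 + L) := by ring
    rw [e] at h1
    have e2 : (fun x => (roundB A x)^[r + 1] (f x)) =
        fun x => roundB A x ((roundB A x)^[r] (f x)) := by
      funext x
      rw [Function.iterate_succ_apply']
    rw [e2]
    exact h1

/-- Start state. -/
def initB (init : (α → Bool) → Arc n m → Bool) (z : α → Bool) : St n m → Bool
  | Sum.inl _ => false
  | Sum.inr e => init z e

theorem lev_init {W : ℕ} (init : (α → Bool) → Arc n m → Bool)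
    (hinit : ∀ e, FD 0 (fun y : α ⊕ Empty → Bool => init (fun a => y (Sum.inl a)) e))
    (hW : Fintype.card (St n m) ≤ W) :
    Lev α W 1 (St n m) (fun x => initB init x) := by
  have h0 : Lev α W 0 Empty (fun _ e => e.elim) := Lev.base
  have := Lev.formula (k := 0) (γ := St n m)
    (fun t (y : α ⊕ Empty → Bool) => initB init (fun a => y (Sum.inl a)) t) ?_
    (by simpa using hW) h0
  · simpa using this
  · rintro (e | e)
    · exact FD.const _ _
    · exact hinit e

def finB (q : Arc n m → α) (z : α → Bool) (s : St n m → Bool) : Unit → Bool := fun _ =>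
  decide (∃ e, (z (q e) && s (Sum.inl e)) = true)

theorem lev_fin {W L d : ℕ} (hL : Fintype.card (Arc n m) ≤ 2 ^ L) (q : Arc n m → α)
    (hW : 2 ^ (1 + L) ≤ W) {f : (α → Bool) → St n m → Bool}
    (h : Lev α W d (St n m) f) :
    Lev α W (d + (2 + L)) Unit (fun x => finB q x (f x)) := by
  have h1 := Lev.formula (k := 1 + L) (γ := Unit)
    (fun t (y : α ⊕ St n m → Bool) => finB q (fun a => y (Sum.inl a))
      (fun b => y (Sum.inr b)) t) ?_ (by simpa using hW) h
  · have e : d + (1 + L) + 1 = d + (2 + L) := by omega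
    rw [e] at h1
    exact h1
  · intro _
    exact FD.exists (k := 1) L hL (fun (e : Arc n m) (y : α ⊕ St n m → Bool) =>
      (y (Sum.inl (q e)) && y (Sum.inr (Sum.inl e))))
      (fun _ => (FD.var 0 _).and (FD.var 0 _))

/-- The complete computation. -/
def evalB (A : Acc α n m) (L : ℕ) (init : (α → Bool) → Arc n m → Bool)
    (pick : ℕ → (α → Bool) → (St n m → Bool) → Arc n m → Bool) (q : Arc n m → α)
    (d t : ℕ) (z : α → Bool) : Bool :=
  finB q z (run A L pick z ((roundB A z)^[d + 1] (initB init z)) t) ()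

theorem evalB_circuit (A : Acc α n m) {W L kS : ℕ} (hL : Fintype.card (Arc n m) ≤ 2 ^ L)
    (init : (α → Bool) → Arc n m → Bool)
    (hinit : ∀ e, FD 0 (fun y : α ⊕ Empty → Bool => init (fun a => y (Sum.inl a)) e))
    (pick : ℕ → (α → Bool) → (St n m → Bool) → Arc n m → Bool)
    (hpick : ∀ j e, FD kS (fun y : α ⊕ St n m → Bool =>
      pick j (fun a => y (Sum.inl a)) (fun b => y (Sum.inr b)) e))
    (q : Arc n m → α) (d t D : ℕ)
    (hW1 : Fintype.card (St1 n m) * 2 ^ kS ≤ W)
    (hW2 : Fintype.card (St2 n m) * 2 ^ (7 + L) ≤ W) (hW3 : 2 ^ (1 + L) ≤ W)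
    (hD : 1 + (d + 1) * (4 + L) + t * (kS + L * (L + 2) + 2 * L + 13) + (2 + L) ≤ D) :
    ∃ B : BCircuit α W, ∃ o : Fin W, ∀ x, B.level x D o = evalB A L init pick q d t x := by
  have hle : Fintype.card (St n m) ≤ Fintype.card (St2 n m) := by
    simp only [Fintype.card_sum]
    omega
  have hW4 : Fintype.card (St n m) * 2 ^ (3 + L) ≤ W :=
    le_trans (Nat.mul_le_mul hle (Nat.pow_le_pow_right (by norm_num) (by omega))) hW2
  have h1 := lev_init (W := W) init hinit (le_trans (Nat.le_mul_of_pos_right _ (by positivity)) hW4)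
  have h2 := lev_rounds A hL hW4 h1 (d + 1)
  have h3 := lev_run A hL pick hpick hW1 hW2 h2 t
  have h4 := lev_fin hL q (W := W) hW3 h3
  have h5 : ∀ r, Lev α W (1 + (d + 1) * (4 + L) + t * (kS + L * (L + 2) + 2 * L + 13) +
      (2 + L) + r) Unit
      (fun x => finB q x (run A L pick x ((roundB A x)^[d + 1] (initB init x)) t)) := by
    intro r
    induction r with
    | zero => exact h4
    | succ r ih =>
      refine Lev.step ih Unit ?_ (fun u => .wire (Sum.inr u))
      have : 0 < 2 ^ (1 + L) := by positivity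
      simp only [Fintype.card_unit]
      omega
  obtain ⟨r, rfl⟩ := Nat.exists_eq_add_of_le hD
  obtain ⟨B, o, hB⟩ := (h5 r).toCircuit
  exact ⟨B, o (), fun x => hB x ()⟩

/-! ### Correctness -/

theorem roundB_iterate {A : Acc α n m} {C : CompCircuit n m} {x : Fin n → Bool} {z : α → Bool}
    (hz : A.Enc C x z) (s : St n m → Bool) (r : ℕ) :
    (∀ e, (roundB A z)^[r] s (Sum.inr e) = s (Sum.inr e)) ∧
    (fun e => (roundB A z)^[r] s (Sum.inl e)) =
      (round C x (fun e => s (Sum.inr e)))^[r] (fun e => s (Sum.inl e)) := by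
  induction r with
  | zero => exact ⟨fun _ => rfl, rfl⟩
  | succ r ih =>
    obtain ⟨ih1, ih2⟩ := ih
    have ih3 : (fun e => (roundB A z)^[r] s (Sum.inr e)) = fun e => s (Sum.inr e) :=
      funext ih1
    rw [Function.iterate_succ_apply']
    refine ⟨fun e => ?_, ?_⟩
    · exact ih1 e
    · rw [Function.iterate_succ_apply', ← ih2]
      funext e
      rcases e with i | ⟨g, c⟩
      · exact hz.src i
      · change comb c _ _ = comb c _ _
        rw [seeB_eq hz, seeB_eq hz, ih3]

/-- Correctness of the machine from an invariant on the sets of open arcs. -/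
theorem evalB_correct {A : Acc α n m} {C : CompCircuit n m} {x : Fin n → Bool} {z : α → Bool}
    (hz : A.Enc C x z) {L : ℕ} (hL : Fintype.card (Arc n m) ≤ 2 ^ L)
    (init : (α → Bool) → Arc n m → Bool)
    (pick : ℕ → (α → Bool) → (St n m → Bool) → Arc n m → Bool)
    (q : Arc n m → α) (d t : ℕ)
    (lay : Fin m → ℕ) (hd : ∀ g, lay g < d)
    (hlay : ∀ g b h c, C.inp (g, b) = Sum.inr (h, c) → init z (Sum.inr (h, c)) = true →
      lay h < lay g)
    (Opn : ℕ → Arc n m → Bool) (h0 : ∀ e, Opn 0 e = init z e)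
    (hpick : ∀ j, j < t → ∀ s : St n m → Bool, (∀ e, s (Sum.inr e) = Opn j e) →
      (∀ e, Opn (j + 1) e = (Opn j e || pick j z s e)) ∧
      (∀ e, pick j z s e = true → Opn j e = false) ∧
      (∀ e e', pick j z s e = true → pick j z s e' = true →
        Relation.ReflTransGen (Adj C (fun a => Opn (j + 1) a = true)) e e' → e = e'))
    (hfull : ∀ p, Opn t (C.inp p) = true)
    {v : Arc n m → Bool} (hv : C.IsVal x v) (e : Arc n m)
    (hq : ∀ f, z (q f) = true ↔ e = f) :
    evalB A L init pick q d t z = v e := by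
  have hinv : ∀ j, j ≤ t →
      (∀ e, run A L pick z ((roundB A z)^[d + 1] (initB init z)) j (Sum.inr e) = Opn j e) ∧
      C.OpenVal x (Opn j)
        (fun e => run A L pick z ((roundB A z)^[d + 1] (initB init z)) j (Sum.inl e)) := by
    intro j
    induction j with
    | zero =>
      intro _
      obtain ⟨h1, h2⟩ := roundB_iterate hz (initB init z) (d + 1)
      refine ⟨fun e => ?_, ?_⟩
      · change (roundB A z)^[d + 1] (initB init z) (Sum.inr e) = _
        rw [h1, h0]
        rfl
      · change C.OpenVal x (Opn 0) (fun e => (roundB A z)^[d + 1] (initB init z) (Sum.inl e))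
        rw [h2]
        have h3 : (fun e => initB init z (Sum.inr e)) = Opn 0 := by
          funext e
          exact (h0 e).symm
        rw [h3]
        refine round_openVal lay d hd ?_ _
        intro g b h c hg hO
        exact hlay g b h c hg (by rw [← h0]; exact hO)
    | succ j ih =>
      intro hj
      obtain ⟨ih1, ih2⟩ := ih (by omega)
      set s := run A L pick z ((roundB A z)^[d + 1] (initB init z)) j with hs
      obtain ⟨hp1, hp2, hp3⟩ := hpick j (by omega) s ih1
      have hO : (fun e => s (Sum.inr e)) = Opn j := funext ih1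
      have hO' : (fun e => s (Sum.inr e) || pick j z s e) = Opn (j + 1) := by
        funext e
        rw [ih1, hp1]
      refine ⟨fun e => ?_, ?_⟩
      · change pushB A L (pick j) z s (Sum.inr e) = _
        rw [pushB_open, ih1, hp1]
      · change C.OpenVal x (Opn (j + 1)) (fun e => pushB A L (pick j) z s (Sum.inl e))
        have h5 := pushB_openVal hz hL (pick j) s (by rw [hO]; exact ih2)
          (fun e he => by rw [ih1]; exact hp2 e he)
          (fun e e' he he' hc => by
            apply hp3 e e' he he'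
            have : (fun a => (s (Sum.inr a) || pick j z s a) = true) =
                fun a => Opn (j + 1) a = true := by
              funext a
              rw [ih1, hp1]
            rw [this] at hc
            exact hc)
        rw [hO'] at h5
        exact h5
  obtain ⟨h1, h2⟩ := hinv t le_rfl
  have h3 := (h2.isVal hfull).unique hv
  rw [← h3, Bool.eq_iff_iff]
  unfold evalB finB
  simp only [decide_eq_true_eq, Bool.and_eq_true, hq]
  constructor
  · rintro ⟨f, rfl, hf⟩; exact hf
  · intro hf; exact ⟨e, rfl, hf⟩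

end Pool.Agent.LibCC
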