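import Mathlib

/-!
Comparator circuits as acyclic digraphs, and the effect of opening a set of arcs.
-/

namespace Pool.Agent.LibCC

open Relation

/-- Arcs of a comparator circuit with `n` source nodes and `m` comparators: `inl i` leaves the
`i`-th source node, `inr (g, false)` carries the conjunction computed by the comparator `g` and
`inr (g, true)` its disjunction. -/
abbrev Arc (n m : ℕ) : Type := Fin n ⊕ (Fin m × Bool)

/-- A comparator circuit with `n` source nodes and `m` comparators. Comparator `g` has the two
incoming arcs `inp (g, false)` and `inp (g, true)`; every arc enters at most one comparator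
(an arc entering none of them ends in a sink), and there is no directed cycle. -/
structure CompCircuit (n m : ℕ) where
  inp : Fin m × Bool → Arc n m
  inj : Function.Injective inp
  acyclic : ∃ ord : Fin m → ℕ, ∀ g b h c, inp (g, b) = Sum.inr (h, c) → ord h < ord g

variable {n m : ℕ}

/-- `v` is the assignment of values to all arcs when the source nodes carry the bits `x`. -/
structure CompCircuit.IsVal (C : CompCircuit n m) (x : Fin n → Bool) (v : Arc n m → Bool) :
    Prop where
  source : ∀ i, v (Sum.inl i) = x i
  conj : ∀ g, v (Sum.inr (g, false)) = (v (C.inp (g, false)) && v (C.inp (g, true)))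
  disj : ∀ g, v (Sum.inr (g, true)) = (v (C.inp (g, false)) || v (C.inp (g, true)))

/-- Output bit of a comparator. -/
def comb (c a b : Bool) : Bool := if c then (a || b) else (a && b)

/-- The value seen through an arc when only the arcs in `O` are open. -/
def see (v O : Arc n m → Bool) (e : Arc n m) : Bool := O e && v e

theorem see_of_false {v O : Arc n m → Bool} {e : Arc n m} (h : v e = false) :
    see v O e = false := by
  simp [see, h]

/-- `v` satisfies all equations when closed arcs deliver the bit `false`. -/
structure CompCircuit.OpenVal (C : CompCircuit n m) (x : Fin n → Bool) (O v : Arc n m → Bool) :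
    Prop where
  source : ∀ i, v (Sum.inl i) = x i
  gate : ∀ g c, v (Sum.inr (g, c)) = comb c (see v O (C.inp (g, false))) (see v O (C.inp (g, true)))

theorem CompCircuit.OpenVal.isVal {C : CompCircuit n m} {x : Fin n → Bool}
    {O v : Arc n m → Bool} (h : C.OpenVal x O v) (hO : ∀ p, O (C.inp p) = true) :
    C.IsVal x v := by
  refine ⟨h.source, fun g => ?_, fun g => ?_⟩
  · rw [h.gate g false]; simp [comb, see, hO]
  · rw [h.gate g true]; simp [comb, see, hO]

theorem CompCircuit.IsVal.unique {C : CompCircuit n m} {x : Fin n → Bool}
    {v v' : Arc n m → Bool} (h : C.IsVal x v) (h' : C.IsVal x v') : v = v' := by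
  obtain ⟨ord, hord⟩ := C.acyclic
  have key : ∀ k : ℕ, ∀ g, ord g < k → ∀ c, v (Sum.inr (g, c)) = v' (Sum.inr (g, c)) := by
    intro k
    induction k with
    | zero => intro g hg; omega
    | succ k ih =>
      intro g hg c
      have hin : ∀ b, v (C.inp (g, b)) = v' (C.inp (g, b)) := by
        intro b
        rcases hb : C.inp (g, b) with i | ⟨a, c'⟩
        · rw [h.source, h'.source]
        · exact ih a (by have := hord g b a c' hb; omega) c'
      cases c
      · rw [h.conj, h'.conj, hin, hin]
      · rw [h.disj, h'.disj, hin, hin]
  funext e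
  rcases e with i | ⟨g, c⟩
  · rw [h.source, h'.source]
  · exact key (ord g + 1) g (Nat.lt_succ_self _) c

/-- One step of the path of a token. -/
def Nxt (C : CompCircuit n m) (v O O' : Arc n m → Bool) (e f : Arc n m) : Prop :=
  O' e = true ∧ ∃ g b, C.inp (g, b) = e ∧ f = Sum.inr (g, !see v O (C.inp (g, !b)))

/-- Two open arcs with a common comparator. -/
def Adj (C : CompCircuit n m) (P : Arc n m → Prop) (e f : Arc n m) : Prop :=
  P e ∧ P f ∧ ∃ g : Fin m, ((∃ b, C.inp (g, b) = e) ∨ ∃ c, e = Sum.inr (g, c)) ∧
    ((∃ b, C.inp (g, b) = f) ∨ ∃ c, f = Sum.inr (g, c))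

theorem push {C : CompCircuit n m} {x : Fin n → Bool} {O S v v' : Arc n m → Bool}
    (hv : C.OpenVal x O v)
    (hS : ∀ e, S e = true → O e = false)
    (hsep : ∀ e e', S e = true → S e' = true →
      ReflTransGen (Adj C (fun a => (O a || S a) = true)) e e' → e = e')
    (hv' : ∀ f, v' f = true ↔ v f = true ∨ ∃ e, S e = true ∧ v e = true ∧
      ReflTransGen (Nxt C v O (fun a => O a || S a)) e f) :
    C.OpenVal x (fun a => O a || S a) v' := by
  classical
  set O' : Arc n m → Bool := fun a => O a || S a with hO'
  set R := Nxt C v O O' with hR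
  obtain ⟨ord, hord⟩ := C.acyclic
  -- reached by a token
  let P : Arc n m → Prop := fun f => ∃ e, S e = true ∧ v e = true ∧ ReflTransGen R e f
  let Q : Arc n m → Prop := fun f => O' f = true ∧ P f
  have hmono : ∀ f, v f = true → v' f = true := fun f hf => (hv' f).2 (Or.inl hf)
  -- arcs reached after at least one step had value false
  have hfresh : ∀ e f, S e = true → v e = true → ReflTransGen R e f →
      see v O f = false ∧ (f = e ∨ v f = false) := by
    intro e f hSe hve hef
    induction hef with
    | refl =>
      refine ⟨?_, Or.inl rfl⟩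
      simp [see, hS e hSe]
    | @tail a f _ haf ih =>
      obtain ⟨hOa, g, b, hg, rfl⟩ := haf
      have ha : see v O (C.inp (g, b)) = false := by rw [hg]; exact ih.1
      have hvf : v (Sum.inr (g, !see v O (C.inp (g, !b)))) = false := by
        rw [hv.gate]
        cases b
        · rw [ha]
          cases hs : see v O (C.inp (g, true)) <;> simp [comb, hs]
        · rw [ha]
          cases hs : see v O (C.inp (g, false)) <;> simp [comb, hs]
      exact ⟨see_of_false hvf, Or.inr hvf⟩
  -- heights
  let ht : Arc n m → ℕ := fun e => match e with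
    | Sum.inl _ => 0
    | Sum.inr (g, _) => ord g + 1
  have hin : ∀ g b, ht (C.inp (g, b)) ≤ ord g := by
    intro g b
    rcases hb : C.inp (g, b) with i | ⟨a, c'⟩
    · exact Nat.zero_le _
    · exact hord g b a c' hb
  have hRht : ∀ e f, ReflTransGen R e f → ht e ≤ ht f := by
    intro e f hef
    induction hef with
    | refl => exact le_rfl
    | @tail a f _ haf ih =>
      obtain ⟨_, g, b, hg, rfl⟩ := haf
      have h1 := hin g b
      rw [hg] at h1
      change ht e ≤ ord g + 1
      omega
  have hRfun : Relator.RightUnique R := by
    intro a b c hab hac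
    obtain ⟨_, g, i, hg, rfl⟩ := hab
    obtain ⟨_, g', i', hg', rfl⟩ := hac
    have h1 : (g, i) = (g', i') := C.inj (hg.trans hg'.symm)
    obtain ⟨rfl, rfl⟩ := Prod.mk.inj h1
    rfl
  -- a token path stays in one component
  have hconn : ∀ e f, S e = true → ReflTransGen R e f → O' f = true →
      ReflTransGen (Adj C (fun a => O' a = true)) e f := by
    intro e f hSe hef
    induction hef with
    | refl => intro _; exact ReflTransGen.refl
    | @tail a f _ haf ih =>
      intro hf
      obtain ⟨hOa, g, b, hg, rfl⟩ := haf
      exact (ih hOa).tail ⟨hOa, hf, g, Or.inl ⟨b, hg⟩, Or.inr ⟨_, rfl⟩⟩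
  have hsymm : ∀ e f, ReflTransGen (Adj C (fun a => O' a = true)) e f →
      ReflTransGen (Adj C (fun a => O' a = true)) f e := by
    intro e f hef
    induction hef with
    | refl => exact ReflTransGen.refl
    | tail _ hab ih =>
      obtain ⟨h1, h2, g, h3, h4⟩ := hab
      exact ReflTransGen.head ⟨h2, h1, g, h4, h3⟩ ih
  have hnotboth : ∀ g b, Q (C.inp (g, b)) → Q (C.inp (g, !b)) → False := by
    intro g b ⟨hO1, e1, hS1, hv1, hp1⟩ ⟨hO2, e2, hS2, hv2, hp2⟩
    have hee : e1 = e2 := by
      apply hsep e1 e2 hS1 hS2
      refine (hconn _ _ hS1 hp1 hO1).trans ?_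
      refine ReflTransGen.head ?_ (hsymm _ _ (hconn _ _ hS2 hp2 hO2))
      exact ⟨hO1, hO2, g, Or.inl ⟨b, rfl⟩, Or.inl ⟨!b, rfl⟩⟩
    subst hee
    have hstep : ∀ b, ReflTransGen R (C.inp (g, b)) (C.inp (g, !b)) → False := by
      intro b hp
      rcases hp.cases_head with heq | ⟨c, hc, hcp⟩
      · have := C.inj heq
        simp at this
      · obtain ⟨_, g', b', hg', rfl⟩ := hc
        have h1 : (g', b') = (g, b) := C.inj hg'
        obtain ⟨rfl, rfl⟩ := Prod.mk.inj h1
        have h2 := hRht _ _ hcp
        have h3 := hin g' (!b')
        change ord g' + 1 ≤ _ at h2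
        omega
    rcases ReflTransGen.total_of_right_unique hRfun hp1 hp2 with h | h
    · exact hstep b h
    · have := hstep (!b)
      rw [Bool.not_not] at this
      exact this h
  -- how the seen inputs change
  have hseeQ : ∀ e, Q e → see v' O' e = true ∧ see v O e = false := by
    rintro e ⟨hO1, e1, hS1, hv1, hp1⟩
    refine ⟨?_, (hfresh e1 e hS1 hv1 hp1).1⟩
    simp only [see, hO1, Bool.true_and]
    exact (hv' e).2 (Or.inr ⟨e1, hS1, hv1, hp1⟩)
  have hseeN : ∀ e, ¬ Q e → see v' O' e = see v O e := by
    intro e hQ
    by_cases hOe : O' e = true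
    · have hnP : ¬ P e := fun hP => hQ ⟨hOe, hP⟩
      have hvv : v' e = v e := by
        rw [Bool.eq_iff_iff, hv' e]
        constructor
        · rintro (h | h)
          · exact h
          · exact absurd h hnP
        · exact fun h => Or.inl h
      by_cases hO1 : O e = true
      · simp [see, hOe, hO1, hvv]
      · have hSe : S e = true := by
          have := hOe
          simp only [hO', Bool.or_eq_true] at this
          rcases this with h | h
          · exact absurd h hO1
          · exact h
        have hve : v e = false := by
          by_contra hcon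
          have hve : v e = true := by simpa using hcon
          exact hnP ⟨e, hSe, hve, ReflTransGen.refl⟩
        simp [see, hvv, hve]
    · have h1 : O' e = false := by simpa using hOe
      have h2 : O e = false := by
        have := h1
        simp only [hO', Bool.or_eq_false_iff] at this
        exact this.1
      simp [see, h1, h2]
  -- which outputs are reached
  have hPout : ∀ g c, P (Sum.inr (g, c)) → v (Sum.inr (g, c)) = true ∨
      ∃ b, Q (C.inp (g, b)) ∧ c = !see v O (C.inp (g, !b)) := by
    rintro g c ⟨e, hSe, hve, hp⟩
    rcases hp.cases_tail with heq | ⟨a, hea, haf⟩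
    · left; rw [heq]; exact hve
    · right
      obtain ⟨hOa, g', b, hg, hf⟩ := haf
      have h1 : (g, c) = (g', !see v O (C.inp (g', !b))) := Sum.inr.inj hf
      obtain ⟨rfl, rfl⟩ := Prod.mk.inj h1
      refine ⟨b, ?_, rfl⟩
      rw [hg]
      exact ⟨hOa, e, hSe, hve, hea⟩
  have hPin : ∀ g b, Q (C.inp (g, b)) → v' (Sum.inr (g, !see v O (C.inp (g, !b)))) = true := by
    rintro g b ⟨hO1, e1, hS1, hv1, hp1⟩
    refine (hv' _).2 (Or.inr ⟨e1, hS1, hv1, hp1.tail ⟨hO1, g, b, rfl, rfl⟩⟩)
  refine ⟨fun i => ?_, fun g c => ?_⟩
  · rw [← hv.source i, Bool.eq_iff_iff, hv']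
    constructor
    · rintro (h | ⟨e, hSe, hve, hp⟩)
      · exact h
      · rcases hp.cases_tail with heq | ⟨a, _, haf⟩
        · rw [heq]; exact hve
        · obtain ⟨_, g, b, _, hf⟩ := haf
          exact absurd hf (by simp)
    · exact fun h => Or.inl h
  · -- the equation at a comparator
    have hkeep : ∀ c, (∀ b, Q (C.inp (g, b)) → c ≠ !see v O (C.inp (g, !b))) →
        v' (Sum.inr (g, c)) = v (Sum.inr (g, c)) := by
      intro c hc
      rw [Bool.eq_iff_iff, hv']
      constructor
      · rintro (h | h)
        · exact h
        · rcases hPout g c h with h | ⟨b, hb, hcb⟩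
          · exact h
          · exact absurd hcb (hc b hb)
      · exact fun h => Or.inl h
    by_cases hf : Q (C.inp (g, false))
    · have ht' : ¬ Q (C.inp (g, true)) := fun h => hnotboth g false hf h
      obtain ⟨hs1, hs2⟩ := hseeQ _ hf
      have hs3 := hseeN _ ht'
      rw [hs1, hs3]
      have hin1 := hPin g false hf
      simp only [Bool.not_false] at hin1
      by_cases hc : c = !see v O (C.inp (g, true))
      · rw [hc, hin1]
        cases see v O (C.inp (g, true)) <;> rfl
      · rw [hkeep c (by
          intro b hb
          cases b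
          · simpa using hc
          · exact absurd hb ht')]
        rw [hv.gate, hs2]
        revert hc
        cases c <;> cases see v O (C.inp (g, true)) <;> simp [comb]
    · by_cases ht' : Q (C.inp (g, true))
      · obtain ⟨hs1, hs2⟩ := hseeQ _ ht'
        have hs3 := hseeN _ hf
        rw [hs1, hs3]
        have hin1 := hPin g true ht'
        simp only [Bool.not_true] at hin1
        by_cases hc : c = !see v O (C.inp (g, false))
        · rw [hc, hin1]
          cases see v O (C.inp (g, false)) <;> rfl
        · rw [hkeep c (by
            intro b hb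
            cases b
            · exact absurd hb hf
            · simpa using hc)]
          rw [hv.gate, hs2]
          revert hc
          cases c <;> cases see v O (C.inp (g, false)) <;> simp [comb]
      · rw [hseeN _ hf, hseeN _ ht', hkeep c (by
          intro b hb
          cases b
          · exact absurd hb hf
          · exact absurd hb ht')]
        exact hv.gate g c

end Pool.Agent.LibCC
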