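import Pool.Agent.LibCC.Circ
import Pool.Agent.LibCC.Push

/-!
The state machine that opens arcs of a comparator circuit, as a levelled Boolean circuit.
-/

namespace Pool.Agent.LibCC

open Relation

/-! ### Reachability by repeated squaring -/

def sq {ι : Type} [Fintype ι] (M : ι × ι → Bool) (p : ι × ι) : Bool :=
  decide (∃ h : ι, (M (p.1, h) && M (h, p.2)) = true)

theorem sq_iff {ι : Type} [Fintype ι] (M : ι × ι → Bool) (e f : ι) :
    sq M (e, f) = true ↔ ∃ h, M (e, h) = true ∧ M (h, f) = true := by
  simp [sq]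

/-- Exactly `k` steps. -/
def Steps {ι : Type} (R : ι → ι → Prop) : ℕ → ι → ι → Prop
  | 0, e, f => e = f
  | k + 1, e, f => ∃ h, R e h ∧ Steps R k h f

theorem Steps.split {ι : Type} {R : ι → ι → Prop} (a b : ℕ) {e f : ι}
    (h : Steps R (a + b) e f) : ∃ g, Steps R a e g ∧ Steps R b g f := by
  induction a generalizing e with
  | zero => exact ⟨e, rfl, by simpa using h⟩
  | succ a ih =>
    rw [show a + 1 + b = (a + b) + 1 by ring] at h
    obtain ⟨h', h1, h2⟩ := h
    obtain ⟨g, h3, h4⟩ := ih h2
    exact ⟨g, ⟨h', h1, h3⟩, h4⟩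

theorem exists_steps {ι : Type} {R : ι → ι → Prop} {e f : ι} (h : ReflTransGen R e f) :
    ∃ k, Steps R k e f := by
  induction h using ReflTransGen.head_induction_on with
  | refl => exact ⟨0, rfl⟩
  | head hab _ ih =>
    obtain ⟨k, hk⟩ := ih
    exact ⟨k + 1, _, hab, hk⟩

theorem Steps.height {ι : Type} {R : ι → ι → Prop} {ht : ι → ℕ}
    (hR : ∀ e f, R e f → ht e < ht f) {k : ℕ} {e f : ι} (h : Steps R k e f) :
    ht e + k ≤ ht f := by
  induction k generalizing e with
  | zero => cases h; simp
  | succ k ih =>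
    obtain ⟨g, h1, h2⟩ := h
    have := ih h2
    have := hR _ _ h1
    omega

theorem sq_iterate_of_steps {ι : Type} [Fintype ι] {R : ι → ι → Prop} {M : ι × ι → Bool}
    (hM : ∀ e f, M (e, f) = true ↔ e = f ∨ R e f) (k : ℕ) :
    ∀ (j : ℕ) (e f : ι), j ≤ 2 ^ k → Steps R j e f → (sq^[k] M) (e, f) = true := by
  induction k with
  | zero =>
    intro j e f hj hs
    rw [Function.iterate_zero, id_eq, hM]
    simp only [pow_zero] at hj
    interval_cases j
    · exact Or.inl hs
    · obtain ⟨h, h1, h2⟩ := hs
      cases h2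
      exact Or.inr h1
  | succ k ih =>
    intro j e f hj hs
    rw [Function.iterate_succ_apply', sq_iff]
    have hsplit : j = min j (2 ^ k) + (j - min j (2 ^ k)) := by omega
    rw [hsplit] at hs
    obtain ⟨g, h1, h2⟩ := Steps.split _ _ hs
    refine ⟨g, ih _ _ _ (min_le_right _ _) h1, ih _ _ _ ?_ h2⟩
    rw [pow_succ] at hj
    omega

theorem rtg_of_sq_iterate {ι : Type} [Fintype ι] {R : ι → ι → Prop} {M : ι × ι → Bool}
    (hM : ∀ e f, M (e, f) = true ↔ e = f ∨ R e f) (k : ℕ) :
    ∀ (e f : ι), (sq^[k] M) (e, f) = true → ReflTransGen R e f := by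
  induction k with
  | zero =>
    intro e f h
    rw [Function.iterate_zero, id_eq, hM] at h
    rcases h with rfl | h
    · exact ReflTransGen.refl
    · exact ReflTransGen.single h
  | succ k ih =>
    intro e f h
    rw [Function.iterate_succ_apply', sq_iff] at h
    obtain ⟨g, h1, h2⟩ := h
    exact (ih _ _ h1).trans (ih _ _ h2)

theorem sq_iterate_iff {ι : Type} [Fintype ι] {R : ι → ι → Prop} {M : ι × ι → Bool}
    (hM : ∀ e f, M (e, f) = true ↔ e = f ∨ R e f) {L : ℕ} (hL : Fintype.card ι ≤ 2 ^ L)
    {ht : ι → ℕ} (hR : ∀ e f, R e f → ht e < ht f) (e f : ι) :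
    (sq^[L] M) (e, f) = true ↔ ReflTransGen R e f := by
  classical
  refine ⟨rtg_of_sq_iterate hM L e f, fun h => ?_⟩
  obtain ⟨k, hk⟩ := exists_steps h
  refine sq_iterate_of_steps hM L k e f ?_ hk
  let ht' : ι → ℕ := fun a => (Finset.univ.filter (fun b => ht b < ht a)).card
  have hR' : ∀ a b, R a b → ht' a < ht' b := by
    intro a b hab
    have h1 := hR a b hab
    apply Finset.card_lt_card
    rw [Finset.ssubset_iff_of_subset]
    · exact ⟨a, by simpa using h1, by simp⟩
    · intro c hc
      simp only [Finset.mem_filter, Finset.mem_univ, true_and] at hc ⊢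
      omega
  have h1 := Steps.height hR' hk
  have h2 : ht' f ≤ Fintype.card ι := by
    rw [← Finset.card_univ]
    exact Finset.card_le_card (Finset.filter_subset _ _)
  omega

variable {n m : ℕ}

/-! ### Rounds of simultaneous evaluation -/

def round (C : CompCircuit n m) (x : Fin n → Bool) (O : Arc n m → Bool)
    (v : Arc n m → Bool) : Arc n m → Bool
  | Sum.inl i => x i
  | Sum.inr (g, c) => comb c (see v O (C.inp (g, false))) (see v O (C.inp (g, true)))

theorem round_openVal {C : CompCircuit n m} {x : Fin n → Bool} {O : Arc n m → Bool}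
    (lay : Fin m → ℕ) (d : ℕ) (hd : ∀ g, lay g < d)
    (hlay : ∀ g b h c, C.inp (g, b) = Sum.inr (h, c) → O (Sum.inr (h, c)) = true →
      lay h < lay g) (v : Arc n m → Bool) :
    C.OpenVal x O ((round C x O)^[d + 1] v) := by
  have key : ∀ k : ℕ, ∀ g, lay g < k → ∀ c,
      ((round C x O)^[k + 1] v) (Sum.inr (g, c)) = ((round C x O)^[k + 2] v) (Sum.inr (g, c)) := by
    intro k
    induction k with
    | zero => intro g hg; omega
    | succ k ih =>
      intro g hg c
      rw [Function.iterate_succ_apply' (round C x O) (k + 1),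
        Function.iterate_succ_apply' (round C x O) (k + 2)]
      have hin : ∀ b, see ((round C x O)^[k + 1] v) O (C.inp (g, b)) =
          see ((round C x O)^[k + 2] v) O (C.inp (g, b)) := by
        intro b
        by_cases hO : O (C.inp (g, b)) = true
        · rcases hb : C.inp (g, b) with i | ⟨a, c'⟩
          · simp only [see]
            rw [Function.iterate_succ_apply' (round C x O) k,
              Function.iterate_succ_apply' (round C x O) (k + 1)]
            rfl
          · rw [hb] at hO
            simp only [see]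
            rw [ih a (by have := hlay g b a c' hb hO; omega) c']
        · simp [see, hO]
      change comb c _ _ = comb c _ _
      rw [hin, hin]
  refine ⟨fun i => ?_, fun g c => ?_⟩
  · rw [Function.iterate_succ_apply']
    rfl
  · rw [key d g (hd g) c, Function.iterate_succ_apply']
    rfl

/-! ### The machine -/

/-- Where the instance bits are found. -/
structure Acc (α : Type) (n m : ℕ) where
  In : Fin m × Bool → Arc n m → α
  X : Fin n → α

/-- The instance bits `z` describe the circuit `C` and the source bits `x`. -/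
structure Acc.Enc {α : Type} (A : Acc α n m) (C : CompCircuit n m) (x : Fin n → Bool)
    (z : α → Bool) : Prop where
  inp : ∀ p e, z (A.In p e) = true ↔ C.inp p = e
  src : ∀ i, z (A.X i) = x i

variable {α : Type}

def seeB (A : Acc α n m) (z : α → Bool) (v O : Arc n m → Bool) (p : Fin m × Bool) : Bool :=
  decide (∃ e, (z (A.In p e) && (O e && v e)) = true)

theorem seeB_eq {A : Acc α n m} {C : CompCircuit n m} {x : Fin n → Bool} {z : α → Bool}
    (h : A.Enc C x z) (v O : Arc n m → Bool) (p : Fin m × Bool) :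
    seeB A z v O p = see v O (C.inp p) := by
  rw [Bool.eq_iff_iff]
  simp only [seeB, see, Bool.and_eq_true, decide_eq_true_eq, h.inp]
  constructor
  · rintro ⟨e, rfl, h1, h2⟩; exact ⟨h1, h2⟩
  · rintro ⟨h1, h2⟩; exact ⟨_, rfl, h1, h2⟩

/-- State: values and open arcs. -/
abbrev St (n m : ℕ) : Type := Arc n m ⊕ Arc n m
/-- State with the set of arcs to be opened. -/
abbrev St1 (n m : ℕ) : Type := St n m ⊕ Arc n m
/-- State with a reachability matrix. -/
abbrev St2 (n m : ℕ) : Type := St1 n m ⊕ (Arc n m × Arc n m)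

def roundB (A : Acc α n m) (z : α → Bool) (s : St n m → Bool) : St n m → Bool
  | Sum.inl (Sum.inl i) => z (A.X i)
  | Sum.inl (Sum.inr (g, c)) =>
      comb c (seeB A z (fun e => s (Sum.inl e)) (fun e => s (Sum.inr e)) (g, false))
        (seeB A z (fun e => s (Sum.inl e)) (fun e => s (Sum.inr e)) (g, true))
  | Sum.inr e => s (Sum.inr e)

def nxB (A : Acc α n m) (z : α → Bool) (v O : Arc n m → Bool) (e : Arc n m) (g : Fin m)
    (c b : Bool) : Bool :=
  z (A.In (g, b) e) && (if c then !(seeB A z v O (g, !b)) else seeB A z v O (g, !b))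

def matB (A : Acc α n m) (z : α → Bool) (v O S : Arc n m → Bool) (e : Arc n m) :
    Arc n m → Bool
  | Sum.inl i => decide (e = Sum.inl i)
  | Sum.inr (g, c) => decide (e = Sum.inr (g, c)) ||
      ((O e || S e) && (nxB A z v O e g c false || nxB A z v O e g c true))

theorem matB_iff {A : Acc α n m} {C : CompCircuit n m} {x : Fin n → Bool} {z : α → Bool}
    (h : A.Enc C x z) (v O S : Arc n m → Bool) (e f : Arc n m) :
    matB A z v O S e f = true ↔ e = f ∨ Nxt C v O (fun a => O a || S a) e f := by
  have hnx : ∀ g c b, nxB A z v O e g c b = true ↔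
      C.inp (g, b) = e ∧ c = !see v O (C.inp (g, !b)) := by
    intro g c b
    simp only [nxB, Bool.and_eq_true, h.inp, seeB_eq h]
    cases c <;> cases see v O (C.inp (g, !b)) <;> simp
  rcases f with i | ⟨g, c⟩
  · simp only [matB, decide_eq_true_eq, Nxt]
    constructor
    · exact fun h => Or.inl h
    · rintro (h | ⟨_, g, b, _, h⟩)
      · exact h
      · exact absurd h (by simp)
  · simp only [matB, Bool.or_eq_true, decide_eq_true_eq, Bool.and_eq_true, hnx, Nxt]
    constructor
    · rintro (h | ⟨h1, h2⟩)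
      · exact Or.inl h
      · right
        refine ⟨h1, g, ?_⟩
        rcases h2 with ⟨h2, h3⟩ | ⟨h2, h3⟩
        · exact ⟨false, h2, by rw [← h3]⟩
        · exact ⟨true, h2, by rw [← h3]⟩
    · rintro (h | ⟨h1, g', b, h2, h3⟩)
      · exact Or.inl h
      · right
        have h4 := Prod.mk.inj (Sum.inr.inj h3)
        obtain ⟨rfl, h5⟩ := h4
        refine ⟨h1, ?_⟩
        cases b
        · exact Or.inl ⟨h2, h5⟩
        · exact Or.inr ⟨h2, h5⟩

def st1B (pick : (α → Bool) → (St n m → Bool) → Arc n m → Bool) (z : α → Bool)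
    (s : St n m → Bool) : St1 n m → Bool
  | Sum.inl t => s t
  | Sum.inr e => pick z s e

def st2B (A : Acc α n m) (z : α → Bool) (s : St1 n m → Bool) : St2 n m → Bool
  | Sum.inl t => s t
  | Sum.inr (e, f) => matB A z (fun e => s (Sum.inl (Sum.inl e)))
      (fun e => s (Sum.inl (Sum.inr e))) (fun e => s (Sum.inr e)) e f

def sqB (s : St2 n m → Bool) : St2 n m → Bool
  | Sum.inl t => s (Sum.inl t)
  | Sum.inr p => sq (fun q => s (Sum.inr q)) p

def endB (s : St2 n m → Bool) : St n m → Bool
  | Sum.inl f => s (Sum.inl (Sum.inl (Sum.inl f))) ||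
      decide (∃ e, ((s (Sum.inl (Sum.inr e)) && s (Sum.inl (Sum.inl (Sum.inl e)))) &&
        s (Sum.inr (e, f))) = true)
  | Sum.inr e => s (Sum.inl (Sum.inl (Sum.inr e))) || s (Sum.inl (Sum.inr e))

/-- The complete push step. -/
def pushB (A : Acc α n m) (L : ℕ) (pick : (α → Bool) → (St n m → Bool) → Arc n m → Bool)
    (z : α → Bool) (s : St n m → Bool) : St n m → Bool :=
  endB (sqB^[L] (st2B A z (st1B pick z s)))

theorem sqB_iterate (L : ℕ) (s : St2 n m → Bool) :
    sqB^[L] s = Sum.elim (fun t => s (Sum.inl t)) (sq^[L] (fun q => s (Sum.inr q))) := by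
  induction L generalizing s with
  | zero => funext t; cases t <;> rfl
  | succ L ih =>
    rw [Function.iterate_succ_apply, ih, Function.iterate_succ_apply]
    rfl

theorem pushB_openVal {A : Acc α n m} {C : CompCircuit n m} {x : Fin n → Bool} {z : α → Bool}
    (hz : A.Enc C x z) {L : ℕ} (hL : Fintype.card (Arc n m) ≤ 2 ^ L)
    (pick : (α → Bool) → (St n m → Bool) → Arc n m → Bool) (s : St n m → Bool)
    (hv : C.OpenVal x (fun e => s (Sum.inr e)) (fun e => s (Sum.inl e)))
    (hS : ∀ e, pick z s e = true → s (Sum.inr e) = false)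
    (hsep : ∀ e e', pick z s e = true → pick z s e' = true →
      ReflTransGen (Adj C (fun a => (s (Sum.inr a) || pick z s a) = true)) e e' → e = e') :
    C.OpenVal x (fun e => s (Sum.inr e) || pick z s e)
      (fun e => pushB A L pick z s (Sum.inl e)) := by
  obtain ⟨ord, hord⟩ := C.acyclic
  set v : Arc n m → Bool := fun e => s (Sum.inl e) with hvdef
  set O : Arc n m → Bool := fun e => s (Sum.inr e) with hOdef
  set S : Arc n m → Bool := pick z s with hSdef
  set R := Nxt C v O (fun a => O a || S a) with hR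
  have hM : ∀ e f, (fun q : Arc n m × Arc n m => matB A z v O S q.1 q.2) (e, f) = true ↔
      e = f ∨ R e f := fun e f => matB_iff hz v O S e f
  let ht : Arc n m → ℕ := fun e => match e with
    | Sum.inl _ => 0
    | Sum.inr (g, _) => ord g + 1
  have hht : ∀ e f, R e f → ht e < ht f := by
    rintro e f ⟨_, g, b, rfl, rfl⟩
    change ht (C.inp (g, b)) < ord g + 1
    rcases hb : C.inp (g, b) with i | ⟨a, c'⟩
    · exact Nat.succ_pos _
    · have := hord g b a c' hb
      exact Nat.succ_lt_succ this
  have hreach := sq_iterate_iff (M := fun q : Arc n m × Arc n m => matB A z v O S q.1 q.2)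
    hM hL hht
  refine push (S := S) hv hS hsep ?_
  intro f
  change endB _ (Sum.inl f) = true ↔ _
  rw [sqB_iterate]
  simp only [endB, Bool.or_eq_true, decide_eq_true_eq, Bool.and_eq_true, Sum.elim_inl,
    Sum.elim_inr]
  have hfun : (fun q : Arc n m × Arc n m => st2B A z (st1B pick z s) (Sum.inr q)) =
      fun q => matB A z v O S q.1 q.2 := by
    funext q
    rfl
  rw [hfun]
  constructor
  · rintro (h | ⟨e, ⟨h1, h2⟩, h3⟩)
    · exact Or.inl h
    · exact Or.inr ⟨e, h1, h2, (hreach e f).1 h3⟩
  · rintro (h | ⟨e, h1, h2, h3⟩)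
    · exact Or.inl h
    · exact Or.inr ⟨e, ⟨h1, h2⟩, (hreach e f).2 h3⟩

theorem pushB_open (A : Acc α n m) (L : ℕ)
    (pick : (α → Bool) → (St n m → Bool) → Arc n m → Bool) (z : α → Bool)
    (s : St n m → Bool) (e : Arc n m) :
    pushB A L pick z s (Sum.inr e) = (s (Sum.inr e) || pick z s e) := by
  unfold pushB
  rw [sqB_iterate]
  rfl

end Pool.Agent.LibCC
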